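import Mathlib

/-!
The numbers `2 ^ (L + 1) - 2 - L` are equidistributed modulo every `m` (written by helper84).
-/

namespace Pool.Agent.Lib.H74E.ClassB

/-- `m ∣ 2^(L+B+1) - (L+B) - r` -/
private def U (m : ℕ) (B : ℕ) (r : ℤ) (L : ℕ) : Prop :=
  (m : ℤ) ∣ 2 ^ (L + B + 1) - ((L : ℤ) + B) - r

private instance (m B : ℕ) (r : ℤ) : DecidablePred (U m B r) := fun L => by
  unfold U
  infer_instance

/-- `p` is a period of `2^(L+B+1) - (L+B)` modulo `m` -/
private def IsPer (m B p : ℕ) : Prop :=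
  ∀ L : ℕ, (m : ℤ) ∣ (2 ^ (L + p + B + 1) - ((L : ℤ) + p + B)) - (2 ^ (L + B + 1) - ((L : ℤ) + B))

private theorem per_iff {m B p : ℕ} (h : IsPer m B p) (r : ℤ) (L : ℕ) :
    U m B r (L + p) ↔ U m B r L := by
  unfold U
  have h1 := h L
  constructor
  · intro h2
    have h3 := dvd_sub h2 h1
    push_cast at h3
    have e : ((2 : ℤ) ^ (L + p + B + 1) - ((L : ℤ) + p + B) - r) -
        ((2 ^ (L + p + B + 1) - ((L : ℤ) + p + B)) - (2 ^ (L + B + 1) - ((L : ℤ) + B))) =
        2 ^ (L + B + 1) - ((L : ℤ) + B) - r := by ring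
    rwa [e] at h3
  · intro h2
    have h3 := dvd_add h2 h1
    have e : ((2 : ℤ) ^ (L + B + 1) - ((L : ℤ) + B) - r) +
        ((2 ^ (L + p + B + 1) - ((L : ℤ) + p + B)) - (2 ^ (L + B + 1) - ((L : ℤ) + B))) =
        2 ^ (L + p + B + 1) - (((L + p : ℕ) : ℤ) + B) - r := by push_cast; ring
    rwa [e] at h3

private theorem count_mul (u : ℕ → Prop) [DecidablePred u] (p : ℕ) (h : ∀ L, u (L + p) ↔ u L)
    (k : ℕ) : Nat.count u (k * p) = k * Nat.count u p := by
  induction k with
  | zero => simp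
  | succ k ih =>
    have h1 : ∀ j L, u (j * p + L) ↔ u L := by
      intro j
      induction j with
      | zero => intro L; simp
      | succ j ihj =>
        intro L
        have e : (j + 1) * p + L = (j * p + L) + p := by ring
        rw [e, h, ihj]
    rw [Nat.succ_mul, Nat.count_add, ih]
    have h2 : Nat.count (fun L => u (k * p + L)) p = Nat.count u p := by
      rw [Nat.count_eq_card_filter_range, Nat.count_eq_card_filter_range]
      congr 1
      exact Finset.filter_congr fun L _ => h1 k L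
    rw [h2]
    ring

private theorem two_per (u : ℕ → Prop) [DecidablePred u] {p q : ℕ} (hp : ∀ L, u (L + p) ↔ u L)
    (hq : ∀ L, u (L + q) ↔ u L) : q * Nat.count u p = p * Nat.count u q := by
  rw [← count_mul u p hp q, ← count_mul u q hq p, mul_comm]

/-- the number of solutions of a linear congruence -/
private theorem count_lin (m d : ℕ) (hm : 1 ≤ m) (c : ℤ) :
    Nat.count (fun t : ℕ => (m : ℤ) ∣ c - d * t) m =
      if ((Nat.gcd m d : ℕ) : ℤ) ∣ c then Nat.gcd m d else 0 := by
  set g := Nat.gcd m d with hg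
  have hg0 : 0 < g := Nat.gcd_pos_of_pos_left _ hm
  obtain ⟨m1, hm1⟩ : g ∣ m := Nat.gcd_dvd_left m d
  obtain ⟨d1, hd1⟩ : g ∣ d := Nat.gcd_dvd_right m d
  have hm10 : 0 < m1 := by
    rcases Nat.eq_zero_or_pos m1 with h | h
    · rw [h, mul_zero] at hm1
      omega
    · exact h
  have hcop : Nat.Coprime m1 d1 := by
    have h1 : Nat.gcd m d = g * Nat.gcd m1 d1 := by
      conv_lhs => rw [hm1, hd1]
      exact Nat.gcd_mul_left g m1 d1
    have h2 : g * Nat.gcd m1 d1 = g * 1 := by rw [← h1, mul_one]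
    exact Nat.eq_of_mul_eq_mul_left hg0 h2
  split_ifs with hc
  · obtain ⟨c1, hc1⟩ := hc
    -- a solution
    have hcopZ : IsCoprime (m1 : ℤ) (d1 : ℤ) := Nat.isCoprime_iff_coprime.2 hcop
    obtain ⟨a, b, hab⟩ := hcopZ
    -- b * d1 = 1 - a * m1
    set t0 : ℕ := ((b * c1) % (m1 : ℤ)).toNat with ht0
    have ht0' : (t0 : ℤ) = (b * c1) % (m1 : ℤ) :=
      Int.toNat_of_nonneg (Int.emod_nonneg _ (by exact_mod_cast hm10.ne'))
    have key : ∀ t : ℕ, (m : ℤ) ∣ c - d * t ↔ t ≡ t0 [MOD m1] := by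
      intro t
      have e1 : c - d * t = (g : ℤ) * (c1 - d1 * t) := by
        rw [hc1, hd1]
        push_cast
        ring
      have e2 : (m : ℤ) = (g : ℤ) * m1 := by
        rw [hm1]
        push_cast
        ring
      rw [e1, e2, mul_dvd_mul_iff_left (by exact_mod_cast hg0.ne'), ← Int.natCast_modEq_iff, ht0']
      rw [Int.modEq_iff_dvd]
      have h5 : (m1 : ℤ) ∣ (b * c1) % (m1 : ℤ) - b * c1 := by
        rw [Int.emod_def]
        exact ⟨-((b * c1) / (m1 : ℤ)), by ring⟩
      constructor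
      · intro h
        -- m1 | b (c1 - d1 t), and b d1 = 1 mod m1
        have h6 : (m1 : ℤ) ∣ b * (c1 - d1 * t) := h.mul_left b
        have h7 : (b * c1) % (m1 : ℤ) - t = ((b * c1) % (m1 : ℤ) - b * c1) + b * (c1 - d1 * t) -
            m1 * (a * t) := by
          have : b * (d1 * (t : ℤ)) = t - m1 * (a * t) := by
            linear_combination (t : ℤ) * hab
          linear_combination this
        rw [h7]
        exact dvd_sub (dvd_add h5 h6) (dvd_mul_right _ _)
      · intro h
        have h6 : (m1 : ℤ) ∣ (b * c1) - t := by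
          have := dvd_sub h h5
          have e : (b * c1) % (m1 : ℤ) - t - ((b * c1) % (m1 : ℤ) - b * c1) = b * c1 - t := by ring
          rwa [e] at this
        have h7 : c1 - d1 * t = d1 * (b * c1 - t) + m1 * (a * c1) := by
          linear_combination -c1 * hab
        rw [h7]
        exact dvd_add (h6.mul_left _) (dvd_mul_right _ _)
    have h9 : Nat.count (fun t : ℕ => (m : ℤ) ∣ c - d * t) m = Nat.count (· ≡ t0 [MOD m1]) m := by
      rw [Nat.count_eq_card_filter_range, Nat.count_eq_card_filter_range]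
      congr 1
      exact Finset.filter_congr fun t _ => key t
    rw [h9, Nat.count_modEq_card _ hm10]
    have h10 : m % m1 = 0 := by
      rw [hm1]
      exact Nat.mul_mod_left g m1
    have h11 : m / m1 = g := by
      rw [hm1]
      exact Nat.mul_div_cancel _ hm10
    rw [h10, h11]
    simp
  · rw [Nat.count_eq_card_filter_range, Finset.card_eq_zero, Finset.filter_eq_empty_iff]
    intro t _ h
    apply hc
    have h1 : (g : ℤ) ∣ (m : ℤ) := by exact_mod_cast Nat.gcd_dvd_left m d
    have h2 : (g : ℤ) ∣ (d : ℤ) := by exact_mod_cast Nat.gcd_dvd_right m d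
    have h3 : (g : ℤ) ∣ (c - d * t) + d * t := dvd_add (h1.trans h) (h2.mul_right _)
    rwa [sub_add_cancel] at h3

/-- equidistribution of `2^(L+1) - L` modulo `m`, exact on every period -/
private theorem dens (m : ℕ) (hm : 1 ≤ m) : ∃ B0 : ℕ, ∀ B, B0 ≤ B → ∀ p, IsPer m B p → ∀ r : ℤ,
    m * Nat.count (U m B r) p = p := by
  induction m using Nat.strong_induction_on with
  | _ m ih =>
  rcases Nat.lt_or_ge 1 m with h1 | h1
  swap
  · have h2 : m = 1 := le_antisymm h1 hm
    subst h2
    refine ⟨0, fun B _ p _ r => ?_⟩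
    have h3 : ∀ L, U 1 B r L := fun L => by
      unfold U
      simp
    rw [one_mul, Nat.count_eq_card_filter_range]
    rw [Finset.filter_true_of_mem fun L _ => h3 L, Finset.card_range]
  obtain ⟨k, m', hm', hmk⟩ := Nat.exists_eq_two_pow_mul_odd (n := m) (by omega)
  set d := Nat.totient m' with hd
  have hm'0 : 0 < m' := hm'.pos
  have hd0 : 0 < d := Nat.totient_pos.2 hm'0
  have hdm : d < m := by
    rcases Nat.lt_or_ge 1 m' with h | h
    · calc d < m' := Nat.totient_lt _ h
        _ ≤ m := by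
          rw [hmk]
          exact Nat.le_mul_of_pos_left _ (by positivity)
    · have h2 : m' = 1 := le_antisymm h hm'0
      rw [hd, h2, Nat.totient_one]
      exact h1
  -- `m | 2^(L+d) - 2^L` for `L ≥ k`
  have hper : ∀ L, k ≤ L → (m : ℤ) ∣ 2 ^ (L + d) - 2 ^ L := by
    intro L hL
    have h3 : (m' : ℤ) ∣ 2 ^ d - 1 := by
      have h4 : 2 ^ d ≡ 1 [MOD m'] := Nat.ModEq.pow_totient (Nat.coprime_two_left.2 hm')
      have h5 := (Nat.modEq_iff_dvd.1 h4.symm)
      push_cast at h5
      exact h5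
    have h6 : (2 : ℤ) ^ (L + d) - 2 ^ L = 2 ^ k * (2 ^ (L - k)) * (2 ^ d - 1) := by
      rw [← pow_add, Nat.add_sub_cancel' hL, pow_add]
      ring
    rw [h6, hmk]
    push_cast
    have h7 : (2 : ℤ) ^ k * 2 ^ (L - k) * (2 ^ d - 1) = (2 ^ k * (2 ^ d - 1)) * 2 ^ (L - k) := by ring
    rw [h7]
    exact (mul_dvd_mul_left _ h3).mul_right _
  set g := Nat.gcd m d with hg
  have hg1 : 1 ≤ g := Nat.gcd_pos_of_pos_left _ (by omega)
  have hgm : g < m := lt_of_le_of_lt (Nat.le_of_dvd hd0 (Nat.gcd_dvd_right m d)) hdm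
  obtain ⟨B0, hB0⟩ := ih g hgm hg1
  refine ⟨max B0 k, fun B hB p hp r => ?_⟩
  have hBk : k ≤ B := (le_max_right _ _).trans hB
  have hBB : B0 ≤ B := (le_max_left _ _).trans hB
  have hgdZ : (g : ℤ) ∣ (d : ℤ) := by exact_mod_cast Nat.gcd_dvd_right m d
  have hgmZ : (g : ℤ) ∣ (m : ℤ) := by exact_mod_cast Nat.gcd_dvd_left m d
  -- shift by d
  have hstep : ∀ L : ℕ, (m : ℤ) ∣ (2 ^ (L + d + B + 1) : ℤ) - 2 ^ (L + B + 1) := by
    intro L
    have := hper (L + B + 1) (by omega)
    have e : L + d + B + 1 = L + B + 1 + d := by ring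
    rw [e]
    exact this
  have hstept : ∀ (t L : ℕ), (m : ℤ) ∣ (2 ^ (t * d + L + B + 1) : ℤ) - 2 ^ (L + B + 1) := by
    intro t
    induction t with
    | zero => intro L; simp
    | succ t iht =>
      intro L
      have h3 := hstep (t * d + L)
      have h4 := iht L
      have h5 := dvd_add h3 h4
      have e : (t + 1) * d + L + B + 1 = t * d + L + d + B + 1 := by ring
      rw [e]
      have e2 : (2 ^ (t * d + L + d + B + 1) : ℤ) - 2 ^ (t * d + L + B + 1) +
          (2 ^ (t * d + L + B + 1) - 2 ^ (L + B + 1)) =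
          2 ^ (t * d + L + d + B + 1) - 2 ^ (L + B + 1) := by ring
      rwa [e2] at h5
  have hperg : IsPer g B d := by
    intro L
    have h3 := hgmZ.trans (hstep L)
    have h4 := dvd_sub h3 hgdZ
    have e : (2 ^ (L + d + B + 1) - ((L : ℤ) + d + B)) - (2 ^ (L + B + 1) - ((L : ℤ) + B)) =
      (2 ^ (L + d + B + 1) : ℤ) - 2 ^ (L + B + 1) - d := by ring
    rw [e]
    exact h4
  -- the count on a block of length `m * d`
  have hcount : Nat.count (U m B r) (m * d) = d := by
    rw [Nat.count_eq_card_filter_range, Finset.card_filter]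
    have hsplit : ∀ (h : ℕ → ℕ) (a : ℕ), ∑ L ∈ Finset.range (a * d), h L =
        ∑ t ∈ Finset.range a, ∑ L ∈ Finset.range d, h (t * d + L) := by
      intro h a
      induction a with
      | zero => simp
      | succ a iha =>
        rw [Nat.succ_mul, Finset.sum_range_add, iha, Finset.sum_range_succ]
    rw [hsplit, Finset.sum_comm]
    have h3 : ∀ L ∈ Finset.range d, ∑ t ∈ Finset.range m, (if U m B r (t * d + L) then 1 else 0) =
        if U g B r L then g else 0 := by
      intro L _
      rw [← Finset.card_filter, ← Nat.count_eq_card_filter_range]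
      have h4 : Nat.count (fun t => U m B r (t * d + L)) m =
          Nat.count (fun t : ℕ => (m : ℤ) ∣ (2 ^ (L + B + 1) - ((L : ℤ) + B) - r) - d * t) m := by
        rw [Nat.count_eq_card_filter_range, Nat.count_eq_card_filter_range]
        congr 1
        refine Finset.filter_congr fun t _ => ?_
        unfold U
        have h5 := hstept t L
        have e : (2 : ℤ) ^ (t * d + L + B + 1) - (((t * d + L : ℕ) : ℤ) + B) - r =
            ((2 ^ (L + B + 1) - ((L : ℤ) + B) - r) - d * t) +
              (2 ^ (t * d + L + B + 1) - 2 ^ (L + B + 1)) := by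
          push_cast
          ring
        rw [e]
        exact (Int.dvd_add_left h5)
      rw [h4, count_lin m d (by omega)]
      rfl
    rw [Finset.sum_congr rfl h3, ← Finset.sum_filter, Finset.sum_const, smul_eq_mul,
      ← Nat.count_eq_card_filter_range, mul_comm]
    exact hB0 B hBB d hperg r
  have hper2 : IsPer m B (m * d) := by
    intro L
    have h3 := hstept m L
    have e : (2 ^ (L + m * d + B + 1) - ((L : ℤ) + (m * d : ℕ) + B)) - (2 ^ (L + B + 1) - ((L : ℤ) + B)) =
      ((2 ^ (m * d + L + B + 1) : ℤ) - 2 ^ (L + B + 1)) - m * d := by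
      have e3 : L + m * d + B + 1 = m * d + L + B + 1 := by ring
      rw [e3]
      push_cast
      ring
    rw [e]
    exact dvd_sub h3 (dvd_mul_right _ _)
  have h8 := two_per (U m B r) (per_iff hp r) (per_iff hper2 r)
  -- (m*d) * count p = p * count (m*d) = p * d
  rw [hcount] at h8
  have h9 : d * (m * Nat.count (U m B r) p) = d * p := by
    calc d * (m * Nat.count (U m B r) p) = m * d * Nat.count (U m B r) p := by ring
      _ = p * d := h8
      _ = d * p := by ring
  exact Nat.eq_of_mul_eq_mul_left hd0 h9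

/-- some period exists (from `B` on) -/
private theorem exists_per (m : ℕ) (hm : 1 ≤ m) : ∃ (q B : ℕ), 1 ≤ q ∧ ∀ B', B ≤ B' → IsPer m B' q := by
  obtain ⟨k, m', hm', hmk⟩ := Nat.exists_eq_two_pow_mul_odd (n := m) (by omega)
  set d := Nat.totient m' with hd
  have hd0 : 0 < d := Nat.totient_pos.2 hm'.pos
  refine ⟨d * m, k, Nat.mul_pos hd0 hm, fun B hB L => ?_⟩
  have h3 : (m' : ℤ) ∣ 2 ^ (d * m) - 1 := by
    have h4 : 2 ^ d ≡ 1 [MOD m'] := Nat.ModEq.pow_totient (Nat.coprime_two_left.2 hm')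
    have h6 : (2 ^ d) ^ m ≡ 1 ^ m [MOD m'] := h4.pow m
    rw [one_pow, ← pow_mul] at h6
    have h5 := (Nat.modEq_iff_dvd.1 h6.symm)
    push_cast at h5
    exact h5
  have h6 : (2 ^ (L + d * m + B + 1) - ((L : ℤ) + (d * m : ℕ) + B)) -
      (2 ^ (L + B + 1) - ((L : ℤ) + B)) =
      (2 ^ k * (2 ^ (d * m) - 1)) * 2 ^ (L + B + 1 - k) - m * d := by
    have e : (2 : ℤ) ^ (L + B + 1) = 2 ^ k * 2 ^ (L + B + 1 - k) := by
      rw [← pow_add]
      congr 1
      omega
    have e3 : L + d * m + B + 1 = (L + B + 1) + d * m := by ring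
    rw [e3, pow_add, e]
    push_cast
    ring
  rw [h6]
  refine dvd_sub ?_ (dvd_mul_right _ _)
  refine Dvd.dvd.mul_right ?_ _
  have h7 : (m : ℤ) = 2 ^ k * m' := by
    rw [hmk]
    push_cast
    rfl
  rw [h7]
  exact mul_dvd_mul_left _ h3

theorem classDens (m : ℕ) (hm : 1 ≤ m) (r : ℕ) : ∃ (q B : ℕ) (S : Finset ℕ), 1 ≤ q ∧
    S ⊆ Finset.range q ∧ S.card * m = q ∧
    ∀ L : ℕ, B ≤ L → L % q ∈ S → 2 ^ (L + 1) - 2 - L ≡ r [MOD m] := by
  obtain ⟨q, B1, hq, hB1⟩ := exists_per m hm
  obtain ⟨B0, hB0⟩ := dens m hm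
  set B := q * (B0 + B1) with hB
  have hB0' : B0 ≤ B := by
    rw [hB]
    calc B0 ≤ B0 + B1 := Nat.le_add_right _ _
      _ ≤ q * (B0 + B1) := Nat.le_mul_of_pos_left _ hq
  have hB1' : B1 ≤ B := by
    rw [hB]
    calc B1 ≤ B0 + B1 := Nat.le_add_left _ _
      _ ≤ q * (B0 + B1) := Nat.le_mul_of_pos_left _ hq
  have hper := hB1 B hB1'
  refine ⟨q, B, (Finset.range q).filter (U m B (r + 2)), hq, Finset.filter_subset _ _, ?_, ?_⟩
  · rw [← Nat.count_eq_card_filter_range, mul_comm]
    exact hB0 B hB0' q hper (r + 2)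
  · intro L hL hLS
    have hx := (Finset.mem_filter.1 hLS).2
    -- `L = B + L % q + q * j`
    have hmul : ∀ j x, U m B (r + 2) (x + j * q) ↔ U m B (r + 2) x := by
      intro j
      induction j with
      | zero => intro x; simp
      | succ j ihj =>
        intro x
        have e : x + (j + 1) * q = (x + j * q) + q := by ring
        rw [e, per_iff hper, ihj]
    have hLq : L - B = L % q + (L / q - (B0 + B1)) * q := by
      have h1 := Nat.mod_add_div L q
      have h2 : B0 + B1 ≤ L / q := by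
        rw [Nat.le_div_iff_mul_le hq, mul_comm]
        exact hL
      obtain ⟨j, hj⟩ := Nat.exists_eq_add_of_le h2
      rw [hj, Nat.add_sub_cancel_left]
      have h3 : L = L % q + q * (B0 + B1 + j) := by
        rw [← hj]
        exact h1.symm
      have h4 : q * (B0 + B1 + j) = B + j * q := by
        rw [hB]
        ring
      omega
    have h5 : U m B (r + 2) (L - B) := by
      rw [hLq, hmul]
      exact hx
    unfold U at h5
    have e1 : L - B + B + 1 = L + 1 := by omega
    have e2 : ((L - B : ℕ) : ℤ) + B = L := by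
      rw [Nat.cast_sub hL]
      ring
    rw [e1, e2] at h5
    rw [Nat.ModEq.comm, Nat.modEq_iff_dvd]
    have h6 : L + 2 ≤ 2 ^ (L + 1) := by
      have : L + 1 < 2 ^ (L + 1) := Nat.lt_two_pow_self
      omega
    have e3 : ((2 ^ (L + 1) - 2 - L : ℕ) : ℤ) = 2 ^ (L + 1) - 2 - L := by
      rw [Nat.cast_sub (by omega), Nat.cast_sub (by omega)]
      push_cast
      ring
    rw [e3]
    have e4 : (2 : ℤ) ^ (L + 1) - 2 - L - r = 2 ^ (L + 1) - L - (r + 2) := by ring
    rw [e4]
    exact h5

end Pool.Agent.Lib.H74E.ClassB
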