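import Mathlib

/-!
Integers `n` such that `n / 2 ^ n` is a sum of at least two distinct terms `a / 2 ^ a`
(Erdős).  For an odd `D` let `W D` be the sum of `j * 2 ^ j` over the places `j` of the digits
`1` of `D`.  If `(n + L) * D + 2 = 2 ^ (L + 1) + W D` and `D + 1 < 2 ^ L`, then `n` has the
property, with the indices `n + L` and `n + L - j`, `0 < j < L`, `j` not a digit `1` of `D`.
-/

namespace Pool.Agent.Lib.H74E
open Finset

/-- property E of the problem -/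
def PropE (n : ℕ) : Prop :=
  ∃ s : Finset ℕ, 2 ≤ s.card ∧ (∀ a ∈ s, 1 ≤ a) ∧
    (n : ℚ) / 2 ^ n = ∑ a ∈ s, (a : ℚ) / 2 ^ a

/-- the sum of `j * 2 ^ j` over the places `j` of the binary digits `1` of `D` -/
def W (D : ℕ) : ℕ := ∑ j ∈ range D, if D.testBit j then j * 2 ^ j else 0

lemma E_eq (D L : ℕ) (h : D < 2 ^ L) :
    W D = ∑ j ∈ range L, if D.testBit j then j * 2 ^ j else 0 := by
  have key : ∀ K, D < 2 ^ K → ∀ K', K ≤ K' →
      (∑ j ∈ range K, if D.testBit j then j * 2 ^ j else 0)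
        = ∑ j ∈ range K', if D.testBit j then j * 2 ^ j else 0 := by
    intro K hK K' hKK'
    refine Finset.sum_subset (fun j hj => ?_) (fun j _ hj2 => ?_)
    · simp only [mem_range] at hj ⊢; omega
    · simp only [mem_range, not_lt] at hj2
      rw [Nat.testBit_lt_two_pow (lt_of_lt_of_le hK (Nat.pow_le_pow_right (by norm_num) hj2))]
      simp
  rw [W, key D Nat.lt_two_pow_self (max D L) (le_max_left _ _),
    key L h (max D L) (le_max_right _ _)]

lemma bits_eq (D L : ℕ) : (∑ j ∈ range L, if D.testBit j then 2 ^ j else 0) = D % 2 ^ L := by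
  induction L with
  | zero => simp [Nat.mod_one]
  | succ L ih =>
    rw [sum_range_succ, ih, Nat.mod_pow_succ, Nat.testBit_eq_decide_div_mod_eq]
    rcases Nat.mod_two_eq_zero_or_one (D / 2 ^ L) with h | h <;> simp [h]

lemma E_rec (D : ℕ) : W D = 2 * (W (D / 2) + D / 2) := by
  have h1 : D < 2 ^ (D + 1) := lt_trans Nat.lt_two_pow_self (Nat.pow_lt_pow_right (by norm_num) (by omega))
  have h2 : D / 2 < 2 ^ D := lt_of_le_of_lt (Nat.div_le_self _ _) Nat.lt_two_pow_self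
  have h3 := bits_eq (D / 2) D
  rw [Nat.mod_eq_of_lt h2] at h3
  calc W D = ∑ j ∈ range D, (if (D / 2).testBit j then (j + 1) * 2 ^ (j + 1) else 0) := by
        rw [E_eq D (D + 1) h1, sum_range_succ']
        simp only [zero_mul, ite_self, add_zero, Nat.testBit_succ]
    _ = 2 * ((∑ j ∈ range D, if (D / 2).testBit j then j * 2 ^ j else 0)
          + ∑ j ∈ range D, if (D / 2).testBit j then 2 ^ j else 0) := by
        rw [← sum_add_distrib, mul_sum]
        refine sum_congr rfl fun j _ => ?_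
        split_ifs <;> ring
    _ = 2 * (W (D / 2) + D / 2) := by rw [h3, ← E_eq (D / 2) D h2]

/-- a fast way to compute `W D` -/
def Ef : ℕ → ℕ → ℕ
  | 0, _ => 0
  | k + 1, D => 2 * (Ef k (D / 2) + D / 2)

lemma Ef_eq (k D : ℕ) (h : D < 2 ^ k) : Ef k D = W D := by
  induction k generalizing D with
  | zero => simp at h; subst h; simp [Ef, W]
  | succ k ih =>
    rw [Ef, E_rec, ih (D / 2) (by rw [pow_succ] at h; omega)]

lemma sum_all (L : ℕ) : (∑ j ∈ range L, (j : ℚ) * 2 ^ j) = (L - 2) * 2 ^ L + 2 := by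
  induction L with
  | zero => simp
  | succ L ih => rw [sum_range_succ, ih]; push_cast; ring

lemma sum_pow (L : ℕ) : (∑ j ∈ range L, (2 : ℚ) ^ j) = 2 ^ L - 1 := by
  induction L with
  | zero => simp
  | succ L ih => rw [sum_range_succ, ih]; ring

/-- the construction -/
lemma propE_of (n L D : ℕ) (hn : 1 ≤ n) (hD : D % 2 = 1) (hlt : D + 1 < 2 ^ L)
    (h : (n + L) * D + 2 = 2 ^ (L + 1) + W D) : PropE n := by
  set S : Finset ℕ := {j ∈ range L | j = 0 ∨ D.testBit j = false} with hS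
  have hL : 2 ≤ L := by
    rcases Nat.lt_or_ge L 2 with h2 | h2
    · have h3 : 2 ^ L ≤ 2 ^ 1 := Nat.pow_le_pow_right (by norm_num) (by omega)
      have : D + 1 < 2 := by omega
      have : D = 0 := by omega
      subst this; simp at hD
    · exact h2
  have hbit0 : D.testBit 0 = true := by rw [Nat.testBit_zero]; simp [hD]
  -- some digit of `D` other than the first is zero
  have hzero : ∃ j, j < L ∧ j ≠ 0 ∧ D.testBit j = false := by
    by_contra hcon
    push Not at hcon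
    have h1 := bits_eq D L
    rw [Nat.mod_eq_of_lt (by omega)] at h1
    have h2 : (∑ j ∈ range L, if D.testBit j then 2 ^ j else 0) = ∑ j ∈ range L, 2 ^ j := by
      refine sum_congr rfl fun j hj => ?_
      have : D.testBit j = true := by
        rcases Nat.eq_zero_or_pos j with h0 | h0
        · rw [h0]; exact hbit0
        · have := hcon j (mem_range.1 hj) (by omega)
          simpa using this
      simp [this]
    have h3 : (∑ j ∈ range L, 2 ^ j) + 1 = 2 ^ L := by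
      have := Nat.geomSum_eq (le_refl 2) L
      have h4 : 1 ≤ 2 ^ L := Nat.one_le_two_pow
      rw [this]; simp; omega
    omega
  obtain ⟨j1, hj1L, hj10, hj1b⟩ := hzero
  refine ⟨S.image (fun j => n + L - j), ?_, ?_, ?_⟩
  · have hinj : Set.InjOn (fun j => n + L - j) (S : Set ℕ) := by
      intro a ha b hb hab
      simp only [hS, coe_filter, mem_range, Set.mem_ofPred_eq] at ha hb
      simp only at hab
      omega
    rw [card_image_of_injOn hinj]
    have : ({0, j1} : Finset ℕ) ⊆ S := by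
      intro j hj
      simp only [mem_insert, mem_singleton] at hj
      simp only [hS, mem_filter, mem_range]
      rcases hj with rfl | rfl
      · exact ⟨by omega, Or.inl rfl⟩
      · exact ⟨hj1L, Or.inr hj1b⟩
    calc 2 = ({0, j1} : Finset ℕ).card := by rw [card_pair (fun h => hj10 h.symm)]
      _ ≤ S.card := card_le_card this
  · intro a ha
    simp only [mem_image, hS, mem_filter, mem_range] at ha
    obtain ⟨j, ⟨hj, _⟩, rfl⟩ := ha
    omega
  · have hinj : Set.InjOn (fun j => n + L - j) (S : Set ℕ) := by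
      intro a ha b hb hab
      simp only [hS, coe_filter, mem_range, Set.mem_ofPred_eq] at ha hb
      simp only at hab
      omega
    rw [sum_image hinj]
    have h1 : ∀ j ∈ S, (((n + L - j : ℕ) : ℚ)) / 2 ^ (n + L - j)
        = (((n : ℚ) + L - j) * 2 ^ j) / 2 ^ (n + L) := by
      intro j hj
      simp only [hS, mem_filter, mem_range] at hj
      have h2 : (2 : ℚ) ^ (n + L) = 2 ^ (n + L - j) * 2 ^ j := by
        rw [← pow_add]; congr 1; omega
      rw [h2, Nat.cast_sub (by omega), mul_div_mul_right _ _ (by positivity)]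
      push_cast; ring
    rw [sum_congr rfl h1, ← sum_div]
    have h3 : ∑ j ∈ S, ((n : ℚ) + L - j) * 2 ^ j
        = ∑ j ∈ range L, ((((n : ℚ) + L - j) * 2 ^ j
          - (if D.testBit j then ((n : ℚ) + L - j) * 2 ^ j else 0))
          + if j = 0 then ((n : ℚ) + L) else 0) := by
      rw [hS, sum_filter]
      refine sum_congr rfl fun j _ => ?_
      rcases Nat.eq_zero_or_pos j with h0 | h0
      · subst h0; simp [hbit0]
      · have : j ≠ 0 := by omega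
        cases hb : D.testBit j <;> simp [this]
    have hmodD : D % 2 ^ L = D := Nat.mod_eq_of_lt (by omega)
    have h4 : ∑ j ∈ range L, (if D.testBit j then ((n : ℚ) + L - j) * 2 ^ j else 0)
        = ((n : ℚ) + L) * D - W D := by
      have h5 := bits_eq D L
      rw [hmodD] at h5
      have h6 := E_eq D L (by omega)
      have h7 : (D : ℚ) = ∑ j ∈ range L, (if D.testBit j then (2 : ℚ) ^ j else 0) := by
        conv_lhs => rw [← h5]
        push_cast; rfl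
      have h8 : (W D : ℚ) = ∑ j ∈ range L, (if D.testBit j then (j : ℚ) * 2 ^ j else 0) := by
        rw [h6]; push_cast; rfl
      rw [h7, h8, mul_sum, ← sum_sub_distrib]
      refine sum_congr rfl fun j _ => ?_
      split_ifs <;> ring
    have h9 : ∑ j ∈ range L, (if j = 0 then ((n : ℚ) + L) else 0) = (n : ℚ) + L := by
      rw [sum_ite_eq' (range L) 0 (fun _ => (n : ℚ) + L)]
      simp; omega
    have h10 : ∑ j ∈ range L, ((n : ℚ) + L - j) * 2 ^ j
        = ((n : ℚ) + L) * (2 ^ L - 1) - ((L - 2) * 2 ^ L + 2) := by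
      rw [← sum_all, ← sum_pow, mul_sum, ← sum_sub_distrib]
      refine sum_congr rfl fun j _ => ?_
      ring
    rw [h3, sum_add_distrib, sum_sub_distrib, h4, h9, h10]
    have h11 : ((n : ℚ) + L) * D + 2 = 2 ^ (L + 1) + W D := by exact_mod_cast h
    have h12 : (2 : ℚ) ^ (n + L) = 2 ^ n * 2 ^ L := pow_add _ _ _
    rw [h12, div_eq_div_iff (by positivity) (by positivity)]
    have h13 : (2 : ℚ) ^ (L + 1) = 2 * 2 ^ L := by ring
    rw [h13] at h11
    linear_combination ((2 : ℚ) ^ n) * h11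


/-- `D` odd, and for every large `L` in the residue class `l mod o` the number `D` divides
`2 ^ (L + 1) + W D - 2` -/
def Fam (t : ℕ × ℕ × ℕ) : Prop :=
  t.1 % 2 = 1 ∧ 1 ≤ t.2.2 ∧ 2 ^ (t.2.1 + 1) + W t.1 ≡ 2 [MOD t.1] ∧ 2 ^ t.2.2 ≡ 1 [MOD t.1]

/-- the number `n` of the family -/
def f (t : ℕ × ℕ × ℕ) (L : ℕ) : ℕ := (2 ^ (L + 1) + W t.1 - 2) / t.1 - L

lemma fam_eq (t : ℕ × ℕ × ℕ) (hF : Fam t) (L : ℕ) (hl : t.2.1 ≤ L)
    (hmod : L ≡ t.2.1 [MOD t.2.2]) (hbig : t.1 * (L + 1) + 2 ≤ 2 ^ (L + 1)) :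
    1 ≤ f t L ∧ (f t L + L) * t.1 + 2 = 2 ^ (L + 1) + W t.1 := by
  obtain ⟨D, l, o⟩ := t
  obtain ⟨h1, h2, h3, h4⟩ := hF
  simp only at h1 h2 h3 h4 hl hmod hbig
  obtain ⟨k, hk⟩ : ∃ k, L = l + o * k := by
    obtain ⟨k, hk⟩ := (Nat.modEq_iff_dvd' hl).1 hmod.symm
    exact ⟨k, by omega⟩
  have h5 : 2 ^ (L + 1) + W D ≡ 2 [MOD D] := by
    have : 2 ^ (L + 1) ≡ 2 ^ (l + 1) [MOD D] := by
      have h6 : 2 ^ (L + 1) = 2 ^ (l + 1) * (2 ^ o) ^ k := by
        rw [hk, ← pow_mul, ← pow_add]; congr 1; ring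
      rw [h6]
      calc 2 ^ (l + 1) * (2 ^ o) ^ k ≡ 2 ^ (l + 1) * 1 ^ k [MOD D] :=
            Nat.ModEq.mul_left _ (h4.pow k)
        _ = 2 ^ (l + 1) := by simp
    exact (this.add_right _).trans h3
  have h6 : D ∣ 2 ^ (L + 1) + W D - 2 := (Nat.modEq_iff_dvd' (by omega)).1 h5.symm
  obtain ⟨N, hN⟩ := h6
  have hDpos : 0 < D := by omega
  have hq : (2 ^ (L + 1) + W D - 2) / D = N := by
    rw [hN]; exact Nat.mul_div_cancel_left _ hDpos
  have hNL : L + 1 ≤ N := by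
    have : D * (L + 1) ≤ D * N := by omega
    exact Nat.le_of_mul_le_mul_left this hDpos
  have hf : f (D, l, o) L = N - L := by simp only [f, hq]
  rw [hf]
  refine ⟨by omega, ?_⟩
  have : N - L + L = N := by omega
  rw [this]
  simp only
  rw [mul_comm]
  omega

lemma fam_propE (t : ℕ × ℕ × ℕ) (hF : Fam t) (L : ℕ) (hl : t.2.1 ≤ L) (hL : 2 ≤ L)
    (hmod : L ≡ t.2.1 [MOD t.2.2]) (hbig : t.1 * (L + 1) + 2 ≤ 2 ^ (L + 1)) :
    PropE (f t L) := by
  obtain ⟨h1, h2⟩ := fam_eq t hF L hl hmod hbig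
  refine propE_of (f t L) L t.1 h1 hF.1 ?_ h2
  have h3 := hF.1
  have h4 : t.1 * 3 ≤ t.1 * (L + 1) := Nat.mul_le_mul_left _ (by omega)
  rw [pow_succ] at hbig
  omega

lemma inj_core (Q D D' e e' n L d : ℕ) (hD : D % 2 = 1) (hD' : D' % 2 = 1)
    (hDQ : D ≤ Q) (hD'Q : D' ≤ Q) (he : e ≤ Q) (he' : e' ≤ Q) (hQ : 2 ≤ Q)
    (h : (n + (L + d)) * D + 2 = 2 ^ (L + d + 1) + e) (h' : (n + L) * D' + 2 = 2 ^ (L + 1) + e')
    (hbig : Q ^ 2 * (Q + 3) < 2 ^ (L + 1)) : d = 0 ∧ D = D' := by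
  have hz : (2 : ℤ) ^ (L + 1) * (D' * 2 ^ d - D)
      = D * D' * d + D' * (2 - e) - D * (2 - e') := by
    have h1 : ((n : ℤ) + (L + d)) * D + 2 = 2 ^ (L + d + 1) + e := by exact_mod_cast h
    have h2 : ((n : ℤ) + L) * D' + 2 = 2 ^ (L + 1) + e' := by exact_mod_cast h'
    have h3 : (2 : ℤ) ^ (L + d + 1) = 2 ^ (L + 1) * 2 ^ d := by
      rw [← pow_add]; congr 1; ring
    rw [h3] at h1
    linear_combination (-(D' : ℤ)) * h1 + (D : ℤ) * h2
  set z : ℤ := D' * 2 ^ d - D with hzdef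
  by_cases h0 : z = 0
  · have h1 : D' * 2 ^ d = D := by
      have : (D' : ℤ) * 2 ^ d = D := by rw [hzdef] at h0; linarith
      exact_mod_cast this
    rcases Nat.eq_zero_or_pos d with hd | hd
    · subst hd; simp at h1; exact ⟨rfl, h1.symm⟩
    · exfalso
      obtain ⟨k, rfl⟩ : ∃ k, d = k + 1 := ⟨d - 1, by omega⟩
      rw [pow_succ, ← mul_assoc] at h1
      omega
  · exfalso
    have hz1 : 1 ≤ |z| := Int.one_le_abs h0
    have hd : (d : ℤ) ≤ |z| * (1 + Q) := by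
      have h1 : (d : ℤ) ≤ 2 ^ d := by exact_mod_cast (Nat.lt_two_pow_self (n := d)).le
      have h2 : (2 : ℤ) ^ d ≤ D' * 2 ^ d := by
        have : (1 : ℤ) ≤ D' := by omega
        have h3 : (0 : ℤ) ≤ 2 ^ d := by positivity
        nlinarith
      have h3 : (D' : ℤ) * 2 ^ d = z + D := by rw [hzdef]; ring
      have h4 : z ≤ |z| := le_abs_self z
      have h5 : (D : ℤ) ≤ Q := by exact_mod_cast hDQ
      have h6 : (Q : ℤ) ≤ |z| * Q := by
        have : (0 : ℤ) ≤ Q := by positivity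
        nlinarith
      nlinarith
    have hQ0 : (0 : ℤ) ≤ Q := by positivity
    have hD0 : (0 : ℤ) ≤ D := by positivity
    have hD0' : (0 : ℤ) ≤ D' := by positivity
    have hDQ' : (D : ℤ) ≤ Q := by exact_mod_cast hDQ
    have hDQ'' : (D' : ℤ) ≤ Q := by exact_mod_cast hD'Q
    have hR : |(D : ℤ) * D' * d + D' * (2 - e) - D * (2 - e')| ≤ Q ^ 2 * d + 2 * Q ^ 2 := by
      have a1 : |(D : ℤ) * D' * d| ≤ Q ^ 2 * d := by
        rw [abs_of_nonneg (by positivity)]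
        have : (D : ℤ) * D' ≤ Q ^ 2 := by
          calc (D : ℤ) * D' ≤ Q * Q := mul_le_mul hDQ' hDQ'' hD0' hQ0
            _ = Q ^ 2 := by ring
        exact mul_le_mul_of_nonneg_right this (by positivity)
      have a2 : |(D' : ℤ) * (2 - e)| ≤ Q ^ 2 := by
        rw [abs_mul, abs_of_nonneg hD0']
        have : |(2 : ℤ) - e| ≤ Q := by
          rw [abs_le]; constructor <;> omega
        calc (D' : ℤ) * |(2 : ℤ) - e| ≤ Q * Q := mul_le_mul hDQ'' this (abs_nonneg _) hQ0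
          _ = Q ^ 2 := by ring
      have a3 : |(D : ℤ) * (2 - e')| ≤ Q ^ 2 := by
        rw [abs_mul, abs_of_nonneg hD0]
        have : |(2 : ℤ) - e'| ≤ Q := by
          rw [abs_le]; constructor <;> omega
        calc (D : ℤ) * |(2 : ℤ) - e'| ≤ Q * Q := mul_le_mul hDQ' this (abs_nonneg _) hQ0
          _ = Q ^ 2 := by ring
      calc |(D : ℤ) * D' * d + D' * (2 - e) - D * (2 - e')|
          ≤ |(D : ℤ) * D' * d + D' * (2 - e)| + |(D : ℤ) * (2 - e')| := abs_sub _ _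
        _ ≤ |(D : ℤ) * D' * d| + |(D' : ℤ) * (2 - e)| + |(D : ℤ) * (2 - e')| := by
            gcongr; exact abs_add_le _ _
        _ ≤ Q ^ 2 * d + 2 * Q ^ 2 := by linarith
    rw [← hz, abs_mul, abs_of_nonneg (by positivity : (0 : ℤ) ≤ 2 ^ (L + 1))] at hR
    have hbig' : (Q : ℤ) ^ 2 * (Q + 3) + 1 ≤ 2 ^ (L + 1) := by exact_mod_cast hbig
    have hQ2 : (0 : ℤ) ≤ (Q : ℤ) ^ 2 := by positivity
    have b1 : (Q : ℤ) ^ 2 * d ≤ Q ^ 2 * (|z| * (1 + Q)) := mul_le_mul_of_nonneg_left hd hQ2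
    have b2 : 2 * (Q : ℤ) ^ 2 ≤ 2 * Q ^ 2 * |z| := by nlinarith
    have b3 : ((Q : ℤ) ^ 2 * (Q + 3) + 1) * |z| ≤ 2 ^ (L + 1) * |z| :=
      mul_le_mul_of_nonneg_right hbig' (abs_nonneg _)
    nlinarith

lemma class_card (a b o l : ℕ) (ho : 1 ≤ o) :
    ((b : ℝ) - a) / o - 1 ≤ (#{L ∈ Ico a b | L ≡ l [MOD o]} : ℝ) := by
  have h := Nat.Ico_filter_modEq_card a b (r := o) (by omega) l
  have h1 : ((b : ℚ) - a) / o - 1 ≤ (#{L ∈ Ico a b | L ≡ l [MOD o]} : ℚ) := by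
    have h2 : ((#{L ∈ Ico a b | L ≡ l [MOD o]} : ℤ) : ℚ)
        = ((max (⌈((b : ℚ) - l) / (o : ℚ)⌉ - ⌈((a : ℚ) - l) / (o : ℚ)⌉) 0 : ℤ) : ℚ) := by
      rw [h]
    rw [Int.cast_natCast] at h2
    rw [h2]
    have h3 : (((⌈((b : ℚ) - l) / (o : ℚ)⌉ - ⌈((a : ℚ) - l) / (o : ℚ)⌉ : ℤ)) : ℚ)
        ≤ ((max (⌈((b : ℚ) - l) / (o : ℚ)⌉ - ⌈((a : ℚ) - l) / (o : ℚ)⌉) 0 : ℤ) : ℚ) := by
      exact_mod_cast le_max_left _ _
    refine le_trans ?_ h3
    push_cast
    have h4 := Int.le_ceil (((b : ℚ) - l) / (o : ℚ))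
    have h5 := Int.ceil_lt_add_one (((a : ℚ) - l) / (o : ℚ))
    have h6 : ((b : ℚ) - a) / o = ((b : ℚ) - l) / o - ((a : ℚ) - l) / o := by ring
    linarith
  exact_mod_cast h1

lemma count_lower (P : ℕ → Prop) [DecidablePred P] (F : Finset (ℕ × ℕ × ℕ))
    (hF : ∀ t ∈ F, Fam t) (hinj : ∀ t ∈ F, ∀ t' ∈ F, t.1 = t'.1 →
      ∀ L, L ≡ t.2.1 [MOD t.2.2] → L ≡ t'.2.1 [MOD t'.2.2] → t = t')
    (B : ℕ) (hP : ∀ t ∈ F, ∀ L, B ≤ L → L ≡ t.2.1 [MOD t.2.2] → P (f t L))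
    (c : ℝ) (hc : c < ∑ t ∈ F, (1 : ℝ) / t.2.2) :
    ∀ᶠ x : ℕ in Filter.atTop, c * Real.logb 2 x ≤ (#{n ∈ Icc 1 x | P n} : ℝ) := by
  obtain ⟨Q, hQ3, hQ⟩ : ∃ Q : ℕ, 3 ≤ Q ∧ ∀ t ∈ F, t.1 ≤ Q ∧ W t.1 ≤ Q ∧ t.2.1 ≤ Q := by
    refine ⟨3 + ∑ t ∈ F, (t.1 + W t.1 + t.2.1), by omega, fun t ht => ?_⟩
    have := single_le_sum (f := fun t : ℕ × ℕ × ℕ => t.1 + W t.1 + t.2.1)
      (fun i _ => Nat.zero_le _) ht
    omega
  set L0 : ℕ := B + 4 * Q with hL0
  have hsq : ∀ k : ℕ, 4 ≤ k → k ^ 2 ≤ 2 ^ k := by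
    intro k hk
    induction k, hk using Nat.le_induction with
    | base => norm_num
    | succ k hk ih => rw [pow_succ 2 k]; nlinarith
  have hbig1 : ∀ L, L0 ≤ L → Q * (L + 1) + 2 ≤ 2 ^ (L + 1) := by
    intro L hL
    have h1 := hsq (L + 1) (by omega)
    have h2 : 4 * Q ≤ L := by omega
    nlinarith
  have hbig2 : ∀ L, L0 ≤ L → Q ^ 2 * (Q + 3) < 2 ^ (L + 1) := by
    intro L hL
    have h1 : Q < 2 ^ Q := Nat.lt_two_pow_self
    have h2 : 2 ^ (4 * Q) ≤ 2 ^ (L + 1) := Nat.pow_le_pow_right (by norm_num) (by omega)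
    have h3 : (2 : ℕ) ^ (4 * Q) = (2 ^ Q) ^ 4 := by rw [← pow_mul]; congr 1; ring
    have h4 : Q ^ 4 < (2 ^ Q) ^ 4 := Nat.pow_lt_pow_left h1 (by norm_num)
    have h5 : Q ^ 2 * (Q + 3) ≤ Q ^ 4 := by
      have : Q + 3 ≤ Q ^ 2 := by nlinarith
      calc Q ^ 2 * (Q + 3) ≤ Q ^ 2 * Q ^ 2 := Nat.mul_le_mul_left _ this
        _ = Q ^ 4 := by ring
    omega
  have hbigt : ∀ t ∈ F, ∀ L, L0 ≤ L → t.1 * (L + 1) + 2 ≤ 2 ^ (L + 1) := by
    intro t ht L hL
    have h1 : t.1 * (L + 1) ≤ Q * (L + 1) := Nat.mul_le_mul_right _ (hQ t ht).1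
    have := hbig1 L hL
    omega
  -- the counting, for every `M`
  have main : ∀ x M : ℕ, 2 ^ (M + 1) ≤ x →
      ∑ t ∈ F, (((M : ℝ) - L0) / t.2.2 - 1) ≤ (#{n ∈ Icc 1 x | P n} : ℝ) := by
    intro x M hx
    have hcard : (F.sigma (fun t => {L ∈ Ico L0 M | L ≡ t.2.1 [MOD t.2.2]})).card
        ≤ #{n ∈ Icc 1 x | P n} := by
      refine card_le_card_of_injOn (fun p => f p.1 p.2) ?_ ?_
      · rintro ⟨t, L⟩ hp
        simp only [coe_sigma, Set.mem_sigma_iff, mem_coe, mem_filter, mem_Ico] at hp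
        obtain ⟨ht, ⟨hL1, hL2⟩, hmod⟩ := hp
        simp only [coe_filter, mem_Icc, Set.mem_ofPred_eq]
        have hlt : t.2.1 ≤ L := by have := (hQ t ht).2.2; omega
        obtain ⟨h1, h2⟩ := fam_eq t (hF t ht) L hlt hmod (hbigt t ht L hL1)
        refine ⟨⟨h1, ?_⟩, hP t ht L (by omega) hmod⟩
        have h3 : f t L ≤ (f t L + L) * t.1 := by
          have : 1 ≤ t.1 := by have := (hF t ht).1; omega
          nlinarith
        have h4 : W t.1 ≤ 2 ^ (L + 1) := by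
          have := hbig1 L hL1
          have := (hQ t ht).2.1
          nlinarith
        have h5 : 2 ^ (L + 1) + 2 ^ (L + 1) = 2 ^ (L + 2) := by ring
        have h6 : 2 ^ (L + 2) ≤ 2 ^ (M + 1) := Nat.pow_le_pow_right (by norm_num) (by omega)
        omega
      · rintro ⟨t, L⟩ hp ⟨t', L'⟩ hp' heq
        simp only [coe_sigma, Set.mem_sigma_iff, mem_coe, mem_filter, mem_Ico] at hp hp'
        obtain ⟨ht, ⟨hL1, hL2⟩, hmod⟩ := hp
        obtain ⟨ht', ⟨hL1', hL2'⟩, hmod'⟩ := hp'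
        simp only at heq
        have hlt : t.2.1 ≤ L := by have := (hQ t ht).2.2; omega
        have hlt' : t'.2.1 ≤ L' := by have := (hQ t' ht').2.2; omega
        obtain ⟨-, h2⟩ := fam_eq t (hF t ht) L hlt hmod (hbigt t ht L hL1)
        obtain ⟨-, h2'⟩ := fam_eq t' (hF t' ht') L' hlt' hmod' (hbigt t' ht' L' hL1')
        rw [← heq] at h2'
        have hQt := hQ t ht
        have hQt' := hQ t' ht'
        have hres : t.1 = t'.1 ∧ L = L' := by
          rcases Nat.le_total L' L with hle | hle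
          · obtain ⟨d, rfl⟩ := Nat.exists_eq_add_of_le hle
            obtain ⟨r1, r2⟩ := inj_core Q t.1 t'.1 (W t.1) (W t'.1) (f t (L' + d)) L' d
              (hF t ht).1 (hF t' ht').1 hQt.1 hQt'.1 hQt.2.1 hQt'.2.1 (by omega) h2 h2'
              (hbig2 L' hL1')
            exact ⟨r2, by omega⟩
          · obtain ⟨d, rfl⟩ := Nat.exists_eq_add_of_le hle
            obtain ⟨r1, r2⟩ := inj_core Q t'.1 t.1 (W t'.1) (W t.1) (f t L) L d
              (hF t' ht').1 (hF t ht).1 hQt'.1 hQt.1 hQt'.2.1 hQt.2.1 (by omega) h2' h2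
              (hbig2 L hL1)
            exact ⟨r2.symm, by omega⟩
        obtain ⟨r1, r2⟩ := hres
        subst r2
        have := hinj t ht t' ht' r1 L hmod hmod'
        subst this; rfl
    rw [card_sigma] at hcard
    calc ∑ t ∈ F, (((M : ℝ) - L0) / t.2.2 - 1)
        ≤ ∑ t ∈ F, (#{L ∈ Ico L0 M | L ≡ t.2.1 [MOD t.2.2]} : ℝ) :=
          sum_le_sum fun t ht => class_card L0 M t.2.2 t.2.1 (hF t ht).2.1
      _ ≤ (#{n ∈ Icc 1 x | P n} : ℝ) := by exact_mod_cast hcard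
  set κ : ℝ := ∑ t ∈ F, (1 : ℝ) / t.2.2 with hκ
  have hκ0 : 0 ≤ κ := sum_nonneg fun t _ => by positivity
  -- large `x`
  have htend : Filter.Tendsto (fun x : ℕ => Real.logb 2 (x : ℝ)) Filter.atTop Filter.atTop :=
    (Real.tendsto_logb_atTop (by norm_num)).comp tendsto_natCast_atTop_atTop
  filter_upwards [htend.eventually_ge_atTop ((κ * (L0 + 2) + F.card) / (κ - c)),
    Filter.eventually_ge_atTop 4] with x hx1 hx4
  have hlog : 2 ≤ Nat.log 2 x := by
    have : Nat.log 2 4 ≤ Nat.log 2 x := Nat.log_mono_right hx4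
    have h4 : Nat.log 2 4 = 2 := by
      rw [show (4 : ℕ) = 2 ^ 2 by norm_num, Nat.log_pow (by norm_num)]
    omega
  have hM := main x (Nat.log 2 x - 1) (by
    have : Nat.log 2 x - 1 + 1 = Nat.log 2 x := by omega
    rw [this]; exact Nat.pow_log_le_self 2 (by omega))
  have hMr : Real.logb 2 x - 2 ≤ ((Nat.log 2 x - 1 : ℕ) : ℝ) := by
    rw [Nat.cast_sub (by omega)]
    have h1 : Real.logb 2 x < (Nat.log 2 x : ℝ) + 1 := by
      rw [Real.logb_lt_iff_lt_rpow (by norm_num) (by positivity)]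
      have h2 : x < 2 ^ (Nat.log 2 x + 1) := Nat.lt_pow_succ_log_self (by norm_num) x
      have h3 : (x : ℝ) < (2 : ℝ) ^ (Nat.log 2 x + 1) := by exact_mod_cast h2
      rw [show ((Nat.log 2 x : ℝ) + 1) = ((Nat.log 2 x + 1 : ℕ) : ℝ) by push_cast; ring,
        Real.rpow_natCast]
      exact h3
    push_cast
    linarith
  have hsum : ∑ t ∈ F, ((((Nat.log 2 x - 1 : ℕ) : ℝ) - L0) / t.2.2 - 1)
      = κ * (((Nat.log 2 x - 1 : ℕ) : ℝ) - L0) - F.card := by
    rw [sum_sub_distrib, hκ, sum_mul]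
    simp only [sum_const, nsmul_eq_mul, mul_one]
    congr 1
    refine sum_congr rfl fun t _ => ?_
    ring
  rw [hsum] at hM
  refine le_trans ?_ hM
  have hkc : 0 < κ - c := by linarith
  rw [div_le_iff₀ hkc] at hx1
  nlinarith [mul_le_mul_of_nonneg_left hMr hκ0]

lemma fam_bound (F : Finset (ℕ × ℕ × ℕ)) :
    ∃ B : ℕ, ∀ t ∈ F, ∀ L, B ≤ L → t.2.1 ≤ L ∧ 2 ≤ L ∧ t.1 * (L + 1) + 2 ≤ 2 ^ (L + 1) := by
  obtain ⟨Q, hQ3, hQ⟩ : ∃ Q : ℕ, 3 ≤ Q ∧ ∀ t ∈ F, t.1 ≤ Q ∧ t.2.1 ≤ Q := by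
    refine ⟨3 + ∑ t ∈ F, (t.1 + t.2.1), by omega, fun t ht => ?_⟩
    have := single_le_sum (f := fun t : ℕ × ℕ × ℕ => t.1 + t.2.1) (fun i _ => Nat.zero_le _) ht
    omega
  have hsq : ∀ k : ℕ, 4 ≤ k → k ^ 2 ≤ 2 ^ k := by
    intro k hk
    induction k, hk using Nat.le_induction with
    | base => norm_num
    | succ k hk ih => rw [pow_succ 2 k]; nlinarith
  refine ⟨4 * Q, fun t ht L hL => ?_⟩
  obtain ⟨h1, h2⟩ := hQ t ht
  refine ⟨by omega, by omega, ?_⟩
  have h3 := hsq (L + 1) (by omega)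
  have h4 : t.1 * (L + 1) ≤ Q * (L + 1) := Nat.mul_le_mul_right _ h1
  nlinarith

end Pool.Agent.Lib.H74E
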